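import Pool.Agent.Y57.FD.Tup0

/-!
# Almost all integer vectors: few digits changed, and all vectors of a box

`AlmostAll d A 𝓔`: the properties in `𝓔` hold for all but a proportion `y ^ (-A)` of the integer vectors obtained from
an arbitrary one by changing few digits (and translation), and of the integer vectors in a box. `core` is the theorem
`Pool.Agent.Y57.FD.tuples0` in this form.
-/

set_option autoImplicit false

namespace Pool.Agent.P8H74.ST

open Finset Pool.Agent.Y57.FD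
open Pool.Agent.TH894.NE (mean box)
open Pool.Agent.TH894.NF (pr)

open Classical in
/-- The properties `E ∈ 𝓔` of a number `n` and an integer vector hold for almost all vectors. -/
def AlmostAll (d A : ℕ) (𝓔 : Set (ℕ → (Fin d → ℤ) → Prop)) : Prop :=
  (∀ b : ℕ, 2 ≤ b → ∃ κ : ℝ, 0 < κ ∧ ∃ y₀ : ℕ, ∀ E ∈ 𝓔, ∀ (K r : Fin d → ℕ) (y : ℕ), (∀ l, 2 * r l ≤ K l) → y₀ ≤ y →
    ∀ N : Fin d → ℕ, (∀ l, N l < b ^ K l) → ∀ f : Fin d → ℕ → ℕ, (∀ l j, f l j < b ∧ f l j ≠ digit b j (N l)) →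
    ∀ t : Fin d → ℤ,
      (exceptions b K r N f (fun m => ∀ n : ℕ, y ≤ n → (∀ l, (n : ℝ) ≤ Real.exp (κ * r l)) →
        E n (fun l => t l + m l)) : ℝ) ≤ 1 / (y : ℝ) ^ A * ∏ l, ((K l).choose (r l) : ℝ)) ∧
  (∃ κ : ℝ, 0 < κ ∧ ∃ y₀ : ℕ, ∀ E ∈ 𝓔, ∀ K y : ℕ, y₀ ≤ y → ∀ t : Fin d → ℤ,
    (((Fintype.piFinset (fun _ : Fin d => range (2 ^ K))).filter (fun m : Fin d → ℕ =>
      ¬ ∀ n : ℕ, y ≤ n → (n : ℝ) ≤ Real.exp (κ * K) → E n (fun l => t l + m l))).card : ℝ) ≤
        1 / (y : ℝ) ^ A * ((2 : ℝ) ^ K) ^ d)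

/-! ### Binary digits -/

lemma sum_lt (a : ℕ → ℕ) (ha : ∀ j, a j < 2) (K : ℕ) : ∑ j ∈ range K, a j * 2 ^ j < 2 ^ K := by
  induction K with
  | zero => simp
  | succ K ih =>
      rw [sum_range_succ, pow_succ]
      have h := ha K
      have h1 : a K * 2 ^ K ≤ 1 * 2 ^ K := Nat.mul_le_mul_right _ (by omega)
      omega

lemma digit_sum (a : ℕ → ℕ) (ha : ∀ j, a j < 2) (K i : ℕ) (hi : i < K) :
    digit 2 i (∑ j ∈ range K, a j * 2 ^ j) = a i := by
  unfold digit
  induction K with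
  | zero => omega
  | succ K ih =>
      rw [sum_range_succ]
      rcases Nat.lt_succ_iff_lt_or_eq.1 hi with h | h
      · have e : a K * 2 ^ K = (a K * 2 ^ (K - i)) * 2 ^ i := by
          rw [mul_assoc, ← pow_add, Nat.sub_add_cancel h.le]
        have e2 : a K * 2 ^ (K - i) = 2 * (a K * 2 ^ (K - i - 1)) := by
          have : K - i = (K - i - 1) + 1 := by omega
          rw [this, pow_succ]
          simp only [Nat.add_sub_cancel]
          ring
        rw [e, Nat.add_mul_div_right _ _ (by positivity), e2, Nat.add_mul_mod_self_left]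
        exact ih h
      · subst h
        rw [Nat.add_mul_div_right _ _ (by positivity), Nat.div_eq_of_lt (sum_lt a ha i), zero_add]
        exact Nat.mod_eq_of_lt (ha i)

lemma sum_digit (N K : ℕ) : ∑ j ∈ range K, digit 2 j N * 2 ^ j = N % 2 ^ K := by
  unfold digit
  induction K with
  | zero => simp [Nat.mod_one]
  | succ K ih => rw [sum_range_succ, ih, Nat.mod_pow_succ]; ring

/-- the flipped digits -/
def flip (N j : ℕ) : ℕ := 1 - digit 2 j N

lemma digit_lt (j N : ℕ) : digit 2 j N < 2 := Nat.mod_lt _ (by norm_num)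

lemma flip_lt (N j : ℕ) : flip N j < 2 := by unfold flip; omega

lemma flip_ne (N j : ℕ) : flip N j ≠ digit 2 j N := by
  have := digit_lt j N
  unfold flip
  omega

lemma change_lt (K N : ℕ) (S : Finset ℕ) : change 2 K N (flip N) S < 2 ^ K := by
  unfold change
  refine sum_lt (fun i => if i ∈ S then flip N i else digit 2 i N) (fun j => ?_) K
  show (if j ∈ S then flip N j else digit 2 j N) < 2
  split_ifs
  · exact flip_lt _ _
  · exact digit_lt _ _

lemma change_change (K N : ℕ) (S : Finset ℕ) (hN : N < 2 ^ K) :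
    change 2 K (change 2 K N (flip N) S) (flip (change 2 K N (flip N) S)) S = N := by
  have key : ∀ i, i < K → digit 2 i (change 2 K N (flip N) S) = if i ∈ S then flip N i else digit 2 i N := by
    intro i hi
    unfold change
    refine digit_sum (fun i => if i ∈ S then flip N i else digit 2 i N) (fun j => ?_) K i hi
    show (if j ∈ S then flip N j else digit 2 j N) < 2
    split_ifs
    · exact flip_lt _ _
    · exact digit_lt _ _
  have h2 : ∑ i ∈ range K, (if i ∈ S then flip (change 2 K N (flip N) S) i else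
      digit 2 i (change 2 K N (flip N) S)) * 2 ^ i = ∑ i ∈ range K, digit 2 i N * 2 ^ i := by
    refine sum_congr rfl fun i hi => ?_
    rw [mem_range] at hi
    congr 1
    by_cases hS : i ∈ S
    · rw [if_pos hS]
      show 1 - digit 2 i (change 2 K N (flip N) S) = _
      rw [key i hi, if_pos hS]
      have := digit_lt i N
      unfold flip
      omega
    · rw [if_neg hS, key i hi, if_neg hS]
  show ∑ i ∈ range K, (if i ∈ S then flip (change 2 K N (flip N) S) i else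
      digit 2 i (change 2 K N (flip N) S)) * 2 ^ i = N
  rw [h2, sum_digit, Nat.mod_eq_of_lt hN]

open Classical in
/-- Double counting: from few digits changed to all vectors of the box. -/
lemma box_of_digits (d K r : ℕ) (ε : ℝ) (E : (Fin d → ℕ) → Prop) (hr : r ≤ K)
    (h : ∀ N : Fin d → ℕ, (∀ l, N l < 2 ^ K) →
      (exceptions 2 (fun _ => K) (fun _ => r) N (fun l => flip (N l)) E : ℝ) ≤ ε * ∏ _l : Fin d, (K.choose r : ℝ)) :
    (((Fintype.piFinset (fun _ : Fin d => range (2 ^ K))).filter (fun m : Fin d → ℕ => ¬ E m)).card : ℝ) ≤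
      ε * ((2 : ℝ) ^ K) ^ d := by
  obtain ⟨Bx, hBx⟩ : ∃ Bx : Finset (Fin d → ℕ), Bx = Fintype.piFinset (fun _ : Fin d => range (2 ^ K)) := ⟨_, rfl⟩
  obtain ⟨Q, hQ⟩ : ∃ Q : Finset (Fin d → Finset ℕ), Q = Fintype.piFinset (fun _ : Fin d => powersetCard r (range K)) := ⟨_, rfl⟩
  have hmem : ∀ m : Fin d → ℕ, m ∈ Bx ↔ ∀ l, m l < 2 ^ K := by
    intro m
    rw [hBx, Fintype.mem_piFinset]
    simp only [mem_range]
  rw [← hBx]
  have hQc : (Q.card : ℝ) = ∏ _l : Fin d, (K.choose r : ℝ) := by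
    rw [hQ, Fintype.card_piFinset]
    push_cast
    refine prod_congr rfl fun l _ => ?_
    rw [card_powersetCard, card_range]
  have hQ0 : (0 : ℝ) < Q.card := by
    rw [hQc]
    exact prod_pos fun l _ => by exact_mod_cast Nat.choose_pos hr
  have hBc : (Bx.card : ℝ) = ((2 : ℝ) ^ K) ^ d := by
    rw [hBx, Fintype.card_piFinset]
    simp
  have h1 : ∀ N ∈ Bx, (exceptions 2 (fun _ => K) (fun _ => r) N (fun l => flip (N l)) E : ℝ) =
      ∑ S ∈ Q, (if E (fun l => change 2 K (N l) (flip (N l)) (S l)) then (0 : ℝ) else 1) := by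
    intro N _
    unfold exceptions
    rw [← hQ, card_filter]
    push_cast
    refine sum_congr rfl fun S _ => ?_
    by_cases hE : E (fun l => change 2 K (N l) (flip (N l)) (S l))
    · rw [if_pos hE, if_neg (by simpa using hE)]
    · rw [if_neg hE, if_pos (by simpa using hE)]
  have h2 : ∀ S ∈ Q, ∑ N ∈ Bx, (if E (fun l => change 2 K (N l) (flip (N l)) (S l)) then (0 : ℝ) else 1) =
      ((Bx.filter (fun m => ¬ E m)).card : ℝ) := by
    intro S _
    have e1 : ((Bx.filter (fun m => ¬ E m)).card : ℝ) = ∑ m ∈ Bx, (if E m then (0 : ℝ) else 1) := by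
      rw [card_filter]
      push_cast
      refine sum_congr rfl fun m _ => ?_
      by_cases hE : E m
      · rw [if_pos hE, if_neg (by simpa using hE)]
      · rw [if_neg hE, if_pos hE]
    rw [e1]
    refine sum_nbij' (fun N l => change 2 K (N l) (flip (N l)) (S l)) (fun N l => change 2 K (N l) (flip (N l)) (S l))
      ?_ ?_ ?_ ?_ ?_
    · intro N _
      rw [hmem]
      exact fun l => change_lt _ _ _
    · intro N _
      rw [hmem]
      exact fun l => change_lt _ _ _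
    · intro N hN
      rw [hmem] at hN
      funext l
      exact change_change K (N l) (S l) (hN l)
    · intro N hN
      rw [hmem] at hN
      funext l
      exact change_change K (N l) (S l) (hN l)
    · intro N _
      rfl
  have h3 : (Q.card : ℝ) * ((Bx.filter (fun m => ¬ E m)).card : ℝ) ≤ (Q.card : ℝ) * (ε * ((2 : ℝ) ^ K) ^ d) := by
    calc (Q.card : ℝ) * ((Bx.filter (fun m => ¬ E m)).card : ℝ)
        = ∑ S ∈ Q, ∑ N ∈ Bx, (if E (fun l => change 2 K (N l) (flip (N l)) (S l)) then (0 : ℝ) else 1) := by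
          rw [sum_congr rfl h2, sum_const, nsmul_eq_mul]
      _ = ∑ N ∈ Bx, ∑ S ∈ Q, (if E (fun l => change 2 K (N l) (flip (N l)) (S l)) then (0 : ℝ) else 1) := sum_comm
      _ = ∑ N ∈ Bx, (exceptions 2 (fun _ => K) (fun _ => r) N (fun l => flip (N l)) E : ℝ) :=
          sum_congr rfl fun N hN => (h1 N hN).symm
      _ ≤ ∑ _N ∈ Bx, ε * ∏ _l : Fin d, (K.choose r : ℝ) := sum_le_sum fun N hN => h N ((hmem N).1 hN)
      _ = (Q.card : ℝ) * (ε * ((2 : ℝ) ^ K) ^ d) := by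
          rw [sum_const, nsmul_eq_mul, hBc, ← hQc]
          ring
  exact le_of_mul_le_mul_left h3 hQ0

/-- The box part follows from the part about digits. -/
lemma almostAll_of_digits (d A : ℕ) (𝓔 : Set (ℕ → (Fin d → ℤ) → Prop))
    (h : ∀ b : ℕ, 2 ≤ b → ∃ κ : ℝ, 0 < κ ∧ ∃ y₀ : ℕ, ∀ E ∈ 𝓔, ∀ (K r : Fin d → ℕ) (y : ℕ), (∀ l, 2 * r l ≤ K l) → y₀ ≤ y →
    ∀ N : Fin d → ℕ, (∀ l, N l < b ^ K l) → ∀ f : Fin d → ℕ → ℕ, (∀ l j, f l j < b ∧ f l j ≠ digit b j (N l)) →
    ∀ t : Fin d → ℤ,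
      (exceptions b K r N f (fun m => ∀ n : ℕ, y ≤ n → (∀ l, (n : ℝ) ≤ Real.exp (κ * r l)) →
        E n (fun l => t l + m l)) : ℝ) ≤ 1 / (y : ℝ) ^ A * ∏ l, ((K l).choose (r l) : ℝ)) :
    AlmostAll d A 𝓔 := by
  classical
  refine ⟨h, ?_⟩
  obtain ⟨κ, hκ, y₀, H⟩ := h 2 le_rfl
  obtain ⟨y₁, hy₁⟩ := exists_nat_gt (Real.exp κ)
  refine ⟨κ / 3, by positivity, y₀ + y₁, fun E hE K y hy t => ?_⟩
  have hy0 : (0 : ℝ) < y := by
    have h1 : (y₁ : ℝ) ≤ y := by exact_mod_cast (by omega : y₁ ≤ y)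
    have h2 := Real.exp_pos κ
    linarith
  refine box_of_digits d K (K / 2) (1 / (y : ℝ) ^ A) (fun m : Fin d → ℕ =>
    ∀ n : ℕ, y ≤ n → (n : ℝ) ≤ Real.exp (κ / 3 * K) → E n (fun l => t l + m l)) (by omega) (fun N hN => ?_)
  refine le_trans ?_ (H E hE (fun _ => K) (fun _ => K / 2) y (fun _ => by omega) (by omega) N hN
    (fun l => flip (N l)) (fun l j => ⟨flip_lt _ _, flip_ne _ _⟩) t)
  unfold exceptions
  have hsub : ∀ m : Fin d → ℕ, (∀ n : ℕ, y ≤ n → (∀ l : Fin d, (n : ℝ) ≤ Real.exp (κ * ((K / 2 : ℕ) : ℝ))) →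
      E n (fun l => t l + m l)) → ∀ n : ℕ, y ≤ n → (n : ℝ) ≤ Real.exp (κ / 3 * K) → E n (fun l => t l + m l) := by
    intro m hm n hn hnK
    refine hm n hn fun _ => hnK.trans (Real.exp_le_exp.2 ?_)
    by_cases hK : 2 ≤ K
    · have h3 : (K : ℝ) / 3 ≤ ((K / 2 : ℕ) : ℝ) := by
        have h4 : K ≤ 3 * (K / 2) := by omega
        have h5 : (K : ℝ) ≤ 3 * ((K / 2 : ℕ) : ℝ) := by exact_mod_cast h4
        linarith
      calc κ / 3 * K = κ * (K / 3) := by ring
        _ ≤ κ * ((K / 2 : ℕ) : ℝ) := mul_le_mul_of_nonneg_left h3 hκ.le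
    · exfalso
      have h3 : (K : ℝ) ≤ 1 := by exact_mod_cast (by omega : K ≤ 1)
      have h4 : Real.exp (κ / 3 * K) ≤ Real.exp κ := Real.exp_le_exp.2 (by nlinarith)
      have h5 : (y₁ : ℝ) ≤ n := by exact_mod_cast (by omega : y₁ ≤ n)
      linarith
  have hle : ((Fintype.piFinset (fun _ : Fin d => powersetCard (K / 2) (range K))).filter
      (fun S => ¬ (fun m : Fin d → ℕ => ∀ n : ℕ, y ≤ n → (n : ℝ) ≤ Real.exp (κ / 3 * K) → E n (fun l => t l + m l))
        (fun l => change 2 K (N l) (flip (N l)) (S l)))).card ≤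
    ((Fintype.piFinset (fun _ : Fin d => powersetCard (K / 2) (range K))).filter
      (fun S => ¬ (fun m : Fin d → ℕ => ∀ n : ℕ, y ≤ n → (∀ _l : Fin d, (n : ℝ) ≤ Real.exp (κ * ((K / 2 : ℕ) : ℝ))) →
        E n (fun l => t l + m l)) (fun l => change 2 K (N l) (flip (N l)) (S l)))).card := by
    refine card_le_card fun S hS => ?_
    rw [mem_filter] at hS ⊢
    exact ⟨hS.1, fun hcon => hS.2 (hsub _ hcon)⟩
  exact_mod_cast hle

/-! ### Sums over residue vectors -/

lemma sum_box {d p : ℕ} [NeZero p] (g : (Fin d → ZMod p) → ℝ) :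
    ∑ m ∈ box d p, g (fun j => (m j : ZMod p)) = ∑ z : Fin d → ZMod p, g z := by
  refine sum_nbij' (fun m j => (m j : ZMod p)) (fun z j => (z j).val) ?_ ?_ ?_ ?_ ?_
  · intro m _
    exact mem_univ _
  · intro z _
    unfold Pool.Agent.TH894.NE.box
    rw [Fintype.mem_piFinset]
    intro j
    rw [mem_range]
    exact ZMod.val_lt (z j)
  · intro m hm
    unfold Pool.Agent.TH894.NE.box at hm
    rw [Fintype.mem_piFinset] at hm
    funext j
    exact ZMod.val_cast_of_lt (mem_range.1 (hm j))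
  · intro z _
    funext j
    exact ZMod.natCast_zmod_val (z j)
  · intro m _
    rfl

/-- The mean over the residue vectors. -/
noncomputable def avg (d p : ℕ) (g : (Fin d → ZMod p) → ℝ) : ℝ :=
  (∑ m ∈ Fintype.piFinset (fun _ : Fin d => range p), g (fun j => (m j : ZMod p))) / (p : ℝ) ^ d

lemma mean_shift {d p : ℕ} [NeZero p] (t : Fin d → ZMod p) (g : (Fin d → ZMod p) → ℝ) :
    mean d p (fun m => g (fun j => t j + (m j : ZMod p))) = avg d p g := by
  have h1 : ∑ m ∈ box d p, g (fun j => t j + (m j : ZMod p)) = ∑ m ∈ box d p, g (fun j => (m j : ZMod p)) := by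
    rw [sum_box (fun z => g (fun j => t j + z j)), sum_box g]
    exact Fintype.sum_equiv (Equiv.addLeft t) _ _ (fun z => rfl)
  unfold mean avg
  rw [h1]
  unfold Pool.Agent.TH894.NE.box
  ring

/-- The property in the core theorem. -/
def CoreProp {d s : ℕ} (δ : ℝ) (κ : Type) (Λ : ℕ → Finset κ) (w : κ → ℕ → ℝ)
    (G : κ → Fin s → (p : ℕ) → (Fin d → ZMod p) → ℝ) (n : ℕ) (c : Fin d → ℤ) : Prop :=
  2 ≤ n → ∀ l ∈ Λ n, |∑ k ∈ range n, w l k * ∏ i : Fin s, G l i (pr (k + i)) (fun j => (c j : ZMod (pr (k + i))))| ≤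
    Real.sqrt (max 1 (∑ k ∈ range n, w l k ^ 2)) * (n : ℝ) ^ δ

/-- **Core theorem.** -/
theorem core (d s : ℕ) (hd : 1 ≤ d) (hs : 1 ≤ s) (δ : ℝ) (hδ : 0 < δ) (A A₂ : ℕ) (B C₀ : ℝ) (hB : 1 ≤ B) (hC₀ : 0 ≤ C₀) :
    AlmostAll d A {E | ∃ (κ : Type) (Λ : ℕ → Finset κ) (w : κ → ℕ → ℝ) (G : κ → Fin s → (p : ℕ) → (Fin d → ZMod p) → ℝ),
      (∀ n, 2 ≤ n → (Λ n).card ≤ n ^ A₂) ∧ (∀ n, ∀ l ∈ Λ n, ∀ k, |w l k| ≤ 1) ∧
      (∀ l i p, p.Prime → ∀ z, |G l i p z| ≤ B) ∧
      (∀ n, ∀ l ∈ Λ n, ∃ i : Fin s, ∀ p, p.Prime → |avg d p (G l i p)| ≤ C₀ / Real.sqrt p) ∧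
      E = CoreProp δ κ Λ w G} := by
  apply almostAll_of_digits
  intro b hb
  obtain ⟨c, hc, y₀, h⟩ := tuples0 b d s hb hd hs δ hδ A A₂ B C₀ hB hC₀
  refine ⟨c, hc, y₀, ?_⟩
  rintro E ⟨κ, Λ, w, G, hΛ, hw, hG, hmean, rfl⟩ K r y hrK hy N hN f hf t
  refine h K r y hrK hy N hN f hf κ Λ hΛ w hw
    (fun l i p m => G l i p (fun j => (t j : ZMod p) + (m j : ZMod p))) ?_ ?_ ?_ _ ?_
  · intro l i p _ m
    show G l i p (fun j => (t j : ZMod p) + (m j : ZMod p)) = G l i p (fun j => (t j : ZMod p) + ((m j % p : ℕ) : ZMod p))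
    congr 1
    funext j
    rw [ZMod.natCast_mod]
  · intro l i p hp m
    exact hG l i p hp _
  · intro n l hl
    obtain ⟨i, hi⟩ := hmean n l hl
    refine ⟨i, fun p hp => ?_⟩
    haveI : NeZero p := ⟨hp.ne_zero⟩
    show |mean d p (fun m => G l i p (fun j => (t j : ZMod p) + (m j : ZMod p)))| ≤ _
    rw [mean_shift (fun j => (t j : ZMod p)) (G l i p)]
    exact hi p hp
  · intro m hm n hyn hnr h2 l hl
    have h3 := hm n h2 hyn hnr l hl
    refine le_trans (le_of_eq ?_) h3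
    congr 1
    refine sum_congr rfl fun k _ => ?_
    congr 1
    refine prod_congr rfl fun i _ => ?_
    congr 1
    funext j
    push_cast
    rfl

/-- Monotonicity, with a threshold for `n`. -/
lemma AlmostAll.mono {d A : ℕ} {𝓔 𝓕 : Set (ℕ → (Fin d → ℤ) → Prop)} (h : AlmostAll d A 𝓔) (n₀ : ℕ)
    (hEF : ∀ F ∈ 𝓕, ∃ E ∈ 𝓔, ∀ n c, n₀ ≤ n → E n c → F n c) : AlmostAll d A 𝓕 := by
  classical
  apply almostAll_of_digits
  intro b hb
  obtain ⟨c, hc, y₀, h1⟩ := h.1 b hb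
  refine ⟨c, hc, y₀ + n₀, fun F hF K r y hrK hy N hN f hf t => ?_⟩
  obtain ⟨E, hE, hEF'⟩ := hEF F hF
  refine le_trans ?_ (h1 E hE K r y hrK (by omega) N hN f hf t)
  unfold exceptions
  have hle : ((Fintype.piFinset (fun l => powersetCard (r l) (range (K l)))).filter
      (fun S => ¬ (fun m : Fin d → ℕ => ∀ n : ℕ, y ≤ n → (∀ l, (n : ℝ) ≤ Real.exp (c * r l)) → F n (fun l => t l + m l))
        (fun l => change b (K l) (N l) (f l) (S l)))).card ≤
    ((Fintype.piFinset (fun l => powersetCard (r l) (range (K l)))).filter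
      (fun S => ¬ (fun m : Fin d → ℕ => ∀ n : ℕ, y ≤ n → (∀ l, (n : ℝ) ≤ Real.exp (c * r l)) → E n (fun l => t l + m l))
        (fun l => change b (K l) (N l) (f l) (S l)))).card := by
    refine card_le_card fun S hS => ?_
    rw [mem_filter] at hS ⊢
    exact ⟨hS.1, fun hcon => hS.2 (fun n hn hnr => hEF' n _ (by omega) (hcon n hn hnr))⟩
  exact_mod_cast hle

end Pool.Agent.P8H74.ST
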